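import Pool.Agent.Lib.Pf720pq.CollM
import Pool.Agent.Lib.Pf720pm.Dens
import Pool.Agent.Lib.Pf720pm.Dioph
import Pool.Agent.Lib.Pf720po.Decay

/-!
# Polynomial decay of correlations implies summability outside sets of density zero

`E` is the set of `m` with `1 + ‖pv a m‖ < (m l + 1) ^ (1/2)` for some `l`. Let `l` be the variable with
the longest side of the box `M` and `b` the leading coefficient in `m l` (a polynomial map in the other
variables). The fraction of `pv b m = 0` tends to zero; if the coordinate `i` of `pv b m` is not zero then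
`|pv a m i| ≤ (M l) ^ (1/2)` for at most `(D + 1)² ((M l) ^ (1/2) + 1)` points of the line.
-/

set_option autoImplicit false
set_option linter.unusedSectionVars false

open Finset MeasureTheory Filter Topology ProbabilityTheory
open scoped ENNReal

namespace Pool.Agent.Lib.Pf720pq

open Pool.Agent.Lib.Pf720ae
open Pool.Agent.Lib.Pf720ae.Alg (avg_update)
open Pool.Agent.Lib.Pf720mp (Ex mon mon_zero)
open Pool.Agent.Lib.Pf720pm (pv pv_add pv_sub pv_zero Dep pv_update Dio line_lead co pv_co_update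
  zero_density exists_top exists_dio)
open Pool.Agent.Lib.Pf720po.Decay (pw_nonneg pw_summable summable_pi)

variable {κ : Type} [Fintype κ] [DecidableEq κ] {D d : ℕ}

/-- the coordinate functional on `ℤ` is Diophantine -/
lemma dio_one : Dio (d := 1) ((Int.castAddHom ℝ).comp (Pi.evalAddMonoidHom (fun _ : Fin 1 => ℤ) 0)) := by
  refine ⟨1, one_pos, 0, fun v hv R _ _ => ?_⟩
  rw [pow_zero, one_mul]
  have h0 : v 0 ≠ 0 := fun h => hv (funext fun i => by rw [Subsingleton.elim i 0, h]; rfl)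
  have h1 : (1 : ℤ) ≤ |v 0| := Int.one_le_abs h0
  have h2 : ((1 : ℤ) : ℝ) ≤ ((|v 0| : ℤ) : ℝ) := by exact_mod_cast h1
  rw [Int.cast_one, Int.cast_abs] at h2
  exact h2

/-- few small values of a coordinate on a line -/
lemma coord_line {a : Ex κ D → Fin d → ℤ} {l : κ} {e : Fin (D + 1)} (he : e ≠ 0)
    (htop : ∀ e', e < e' → co l e' a = 0) (i : Fin d) (m : κ → ℕ)
    (hm : pv (co l e a) m i ≠ 0) {p : ℝ} (hp : 0 ≤ p) (N : ℕ) :
    (((range N).filter fun t : ℕ => |((pv a (Function.update m l t) i : ℤ) : ℝ)| ≤ p).card : ℝ) ≤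
      ((D : ℝ) + 1) ^ 2 * (p + 1) := by
  set a' : Ex κ D → Fin 1 → ℤ := fun γ _ => a γ i with ha'
  have hpv : ∀ m', pv a' m' = fun _ => pv a m' i := by
    intro m'
    funext j
    simp only [pv, Finset.sum_apply, Pi.smul_apply, ha']
  have hco : ∀ e', co l e' a' = fun γ _ => co l e' a γ i := by
    intro e'
    funext γ j
    simp only [co, ha']
    split_ifs <;> rfl
  have hpvco : pv (co l e a') m = fun _ => pv (co l e a) m i := by
    funext j
    rw [hco]
    simp only [pv, Finset.sum_apply, Pi.smul_apply]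
  have h1 := line_lead dio_one (a := a') he (fun e' h => by
    rw [hco, htop e' h]
    rfl) m (by
    rw [hpvco]
    intro h
    exact hm (congrFun h 0)) hp 0 N
  have hφ : ∀ v : Fin 1 → ℤ, ((Int.castAddHom ℝ).comp
      (Pi.evalAddMonoidHom (fun _ : Fin 1 => ℤ) 0)) v = ((v 0 : ℤ) : ℝ) := fun v => rfl
  simp only [hφ, hpv, hpvco, zero_add] at h1
  refine h1.trans (mul_le_mul_of_nonneg_left ?_ (by positivity))
  have h2 : (1 : ℝ) ≤ |((pv (co l e a) m i : ℤ) : ℝ)| := by
    have h1 : (1 : ℤ) ≤ |pv (co l e a) m i| := Int.one_le_abs hm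
    have h2 : ((1 : ℤ) : ℝ) ≤ ((|pv (co l e a) m i| : ℤ) : ℝ) := by exact_mod_cast h1
    rw [Int.cast_one, Int.cast_abs] at h2
    exact h2
  have h3 := div_le_self hp h2
  linarith

/-- few small values of a coordinate in a box -/
lemma coord_box {a : Ex κ D → Fin d → ℤ} {l : κ} {e : Fin (D + 1)} (he : e ≠ 0)
    (htop : ∀ e', e < e' → co l e' a = 0) (i : Fin d) (M : κ → ℕ) (hM : ∀ l, 0 < M l)
    {p : ℝ} (hp : 0 ≤ p) :
    avg M (fun m => if pv (co l e a) m i ≠ 0 ∧ |((pv a m i : ℤ) : ℝ)| ≤ p then (1 : ℝ) else 0) ≤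
      ((D : ℝ) + 1) ^ 2 * (p + 1) / M l := by
  rw [avg_update M hM l]
  refine avg_le_of_le (by positivity) fun m => ?_
  have hMl : (0 : ℝ) < M l := by exact_mod_cast hM l
  rw [inv_mul_le_iff₀ hMl, mul_div_cancel₀ _ hMl.ne']
  by_cases hb : pv (co l e a) m i = 0
  · refine le_trans (le_of_eq (Finset.sum_eq_zero fun t _ => ?_)) (by positivity)
    rw [pv_co_update, if_neg]
    exact fun h => h.1 hb
  · have h1 := coord_line he htop i m hb hp (M l)
    refine le_trans ?_ h1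
    rw [Finset.card_filter]
    push_cast
    refine Finset.sum_le_sum fun t _ => ?_
    by_cases hc : |((pv a (Function.update m l t) i : ℤ) : ℝ)| ≤ p
    · rw [if_pos hc]
      split_ifs <;> norm_num
    · rw [if_neg fun h => hc h.2]
      split_ifs <;> norm_num

/-- the exceptional set -/
def Eset (a : Ex κ D → Fin d → ℤ) : Set (κ → ℕ) :=
  {m | ∃ l, 1 + ‖pv a m‖ < ((m l : ℝ) + 1) ^ (1 / 2 : ℝ)}

lemma box_tendsto (l : κ) :
    Tendsto (fun M : κ → ℕ => ((D : ℝ) + 1) ^ 2 * ((M l : ℝ) ^ (1 / 2 : ℝ) + 1) / M l) atTop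
      (𝓝 0) := by
  have h0 : Tendsto (fun M : κ → ℕ => M l) atTop atTop :=
    tendsto_atTop_atTop.mpr fun n => ⟨fun _ => n, fun _ hM => hM l⟩
  have h1 : Tendsto (fun M : κ → ℕ => ((M l : ℕ) : ℝ)) atTop atTop :=
    tendsto_natCast_atTop_atTop.comp h0
  have h2 : Tendsto (fun x : ℝ => ((D : ℝ) + 1) ^ 2 * (x ^ (-(1 / 2) : ℝ) + x ^ (-1 : ℝ))) atTop
      (𝓝 0) := by
    have h3 := ((tendsto_rpow_neg_atTop (by norm_num : (0 : ℝ) < 1 / 2)).add
      (tendsto_rpow_neg_atTop (by norm_num : (0 : ℝ) < 1))).const_mul (((D : ℝ) + 1) ^ 2)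
    rw [add_zero, mul_zero] at h3
    exact h3
  refine (h2.comp h1).congr' ?_
  filter_upwards [eventually_ge_atTop (fun _ : κ => 1)] with M hM
  have hx : (0 : ℝ) < M l := by
    have : 1 ≤ M l := hM l
    exact_mod_cast this
  have e1 : (M l : ℝ) ^ (-(1 / 2) : ℝ) = (M l : ℝ) ^ (1 / 2 : ℝ) / (M l : ℝ) := by
    conv_rhs => rw [div_eq_mul_inv, ← Real.rpow_neg_one (M l : ℝ), ← Real.rpow_add hx]
    norm_num
  have e2 : (M l : ℝ) ^ (-1 : ℝ) = 1 / (M l : ℝ) := by rw [Real.rpow_neg_one, one_div]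
  show ((D : ℝ) + 1) ^ 2 * ((M l : ℝ) ^ (-(1 / 2) : ℝ) + (M l : ℝ) ^ (-1 : ℝ)) = _
  rw [e1, e2]
  ring

lemma dz_Eset (a : Ex κ D → Fin d → ℤ) (ha : ∀ l, Dep a l) : DZ (Eset a) := by
  classical
  unfold DZ
  obtain ⟨φ, hφ⟩ := exists_dio d
  choose e he hco htop using fun l => exists_top (ha l)
  have hf : Tendsto (fun M : κ → ℕ => ∑ l, ((avg M fun m => if pv (co l (e l) a) m = 0 then
      (1 : ℝ) else 0) + (d : ℝ) * (((D : ℝ) + 1) ^ 2 * ((M l : ℝ) ^ (1 / 2 : ℝ) + 1) / M l)))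
      atTop (𝓝 0) := by
    have h4 : ∀ l ∈ (Finset.univ : Finset κ), Tendsto (fun M : κ → ℕ => (avg M fun m =>
        if pv (co l (e l) a) m = 0 then (1 : ℝ) else 0) +
        (d : ℝ) * (((D : ℝ) + 1) ^ 2 * ((M l : ℝ) ^ (1 / 2 : ℝ) + 1) / M l)) atTop (𝓝 0) := by
      intro l _
      have h2 := zero_density hφ (co l (e l) a) (hco l)
      have h3 := (box_tendsto (D := D) l).const_mul (d : ℝ)
      rw [mul_zero] at h3
      have h4 := h2.add h3
      rw [add_zero] at h4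
      exact h4
    have h5 := tendsto_finsetSum (Finset.univ : Finset κ) h4
    rw [Finset.sum_const_zero] at h5
    exact h5
  refine tendsto_of_tendsto_of_tendsto_of_le_of_le' tendsto_const_nhds hf
    (Eventually.of_forall fun M => ?_) ?_
  · exact avg_nonneg M fun m => Set.indicator_nonneg (fun _ _ => zero_le_one) _
  filter_upwards [eventually_ge_atTop (fun _ : κ => 1)] with M hM1
  have hM : ∀ l, 0 < M l := fun l => hM1 l
  have hnn : ∀ l, 0 ≤ (avg M fun m => if pv (co l (e l) a) m = 0 then (1 : ℝ) else 0) +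
      (d : ℝ) * (((D : ℝ) + 1) ^ 2 * ((M l : ℝ) ^ (1 / 2 : ℝ) + 1) / M l) := by
    intro l
    have h1 : 0 ≤ avg M fun m => if pv (co l (e l) a) m = 0 then (1 : ℝ) else 0 :=
      avg_nonneg M fun m => by split_ifs <;> norm_num
    positivity
  rcases isEmpty_or_nonempty κ with hκ | hκ
  · have h1 : avg M ((Eset a).indicator fun _ => (1 : ℝ)) = 0 := by
      unfold avg
      rw [Finset.sum_eq_zero, mul_zero]
      intro m _
      rw [Set.indicator_of_notMem]
      rintro ⟨l, _⟩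
      exact hκ.elim l
    rw [h1]
    exact Finset.sum_nonneg fun l _ => hnn l
  obtain ⟨l, hl⟩ := Finite.exists_max M
  refine le_trans ?_ (Finset.single_le_sum (f := fun l => (avg M fun m =>
    if pv (co l (e l) a) m = 0 then (1 : ℝ) else 0) +
      (d : ℝ) * (((D : ℝ) + 1) ^ 2 * ((M l : ℝ) ^ (1 / 2 : ℝ) + 1) / M l))
    (fun l _ => hnn l) (Finset.mem_univ l))
  have h2 : (d : ℝ) * (((D : ℝ) + 1) ^ 2 * ((M l : ℝ) ^ (1 / 2 : ℝ) + 1) / M l) =
      ∑ _i : Fin d, (((D : ℝ) + 1) ^ 2 * ((M l : ℝ) ^ (1 / 2 : ℝ) + 1) / M l) := by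
    rw [Finset.sum_const, Finset.card_univ, Fintype.card_fin, nsmul_eq_mul]
  have h3 : ∑ i : Fin d, avg M (fun m => if pv (co l (e l) a) m i ≠ 0 ∧
      |((pv a m i : ℤ) : ℝ)| ≤ (M l : ℝ) ^ (1 / 2 : ℝ) then (1 : ℝ) else 0) ≤
      ∑ _i : Fin d, (((D : ℝ) + 1) ^ 2 * ((M l : ℝ) ^ (1 / 2 : ℝ) + 1) / M l) :=
    Finset.sum_le_sum fun i _ => coord_box (he l) (htop l) i M hM (by positivity)
  rw [h2]
  refine le_trans ?_ (add_le_add le_rfl h3)
  have h4 : ∑ i : Fin d, avg M (fun m => if pv (co l (e l) a) m i ≠ 0 ∧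
      |((pv a m i : ℤ) : ℝ)| ≤ (M l : ℝ) ^ (1 / 2 : ℝ) then (1 : ℝ) else 0) =
      avg M fun m => ∑ i : Fin d, (if pv (co l (e l) a) m i ≠ 0 ∧
        |((pv a m i : ℤ) : ℝ)| ≤ (M l : ℝ) ^ (1 / 2 : ℝ) then (1 : ℝ) else 0) := by
    unfold avg
    rw [← Finset.mul_sum, Finset.sum_comm]
  rw [h4, ← avg_add]
  refine avg_mono' M fun m hm => ?_
  have hs0 : ∀ i : Fin d, 0 ≤ (if pv (co l (e l) a) m i ≠ 0 ∧
      |((pv a m i : ℤ) : ℝ)| ≤ (M l : ℝ) ^ (1 / 2 : ℝ) then (1 : ℝ) else 0) := fun i => by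
    split_ifs <;> norm_num
  by_cases hE : m ∈ Eset a
  · rw [Set.indicator_of_mem hE]
    by_cases hb : pv (co l (e l) a) m = 0
    · rw [if_pos hb]
      have := Finset.sum_nonneg fun i (_ : i ∈ Finset.univ) => hs0 i
      linarith
    · rw [if_neg hb, zero_add]
      obtain ⟨i, hi⟩ := Function.ne_iff.1 hb
      refine le_trans ?_ (Finset.single_le_sum (f := fun i => if pv (co l (e l) a) m i ≠ 0 ∧
        |((pv a m i : ℤ) : ℝ)| ≤ (M l : ℝ) ^ (1 / 2 : ℝ) then (1 : ℝ) else 0)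
        (fun i _ => hs0 i) (Finset.mem_univ i))
      rw [if_pos]
      refine ⟨hi, ?_⟩
      obtain ⟨l', hl'⟩ := hE
      have h5 := norm_le_pi_norm (pv a m) i
      rw [Int.norm_eq_abs] at h5
      have h6 : ((m l' : ℝ) + 1) ^ (1 / 2 : ℝ) ≤ (M l : ℝ) ^ (1 / 2 : ℝ) := by
        refine Real.rpow_le_rpow (by positivity) ?_ (by norm_num)
        have h7 : m l' < M l' := by
          have := hm
          unfold Pool.Agent.Lib.Pf720ae.box at this
          rw [Fintype.mem_piFinset] at this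
          exact Finset.mem_range.1 (this l')
        have h8 : m l' + 1 ≤ M l := h7.trans_le (hl l')
        exact_mod_cast h8
      linarith
  · rw [Set.indicator_of_notMem hE]
    have h5 := Finset.sum_nonneg fun i (_ : i ∈ Finset.univ) => hs0 i
    have h6 : 0 ≤ (if pv (co l (e l) a) m = 0 then (1 : ℝ) else 0) := by split_ifs <;> norm_num
    linarith

lemma summable_Eset (a : Ex κ D → Fin d → ℤ) {δ : ℝ} (hδ : 0 < δ) :
    Summable ((Eset a)ᶜ.indicator fun m : κ → ℕ =>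
      (1 + ‖pv a m‖) ^ (-δ) / ∏ l, ((m l : ℝ) + 1)) := by
  rcases isEmpty_or_nonempty κ with hκ | hκ
  · exact summable_of_hasFiniteSupport (Set.toFinite _)
  have hk : 0 < Fintype.card κ := Fintype.card_pos
  have hk' : (0 : ℝ) < Fintype.card κ := by exact_mod_cast hk
  have hU : Summable fun m : κ → ℕ => ∏ j, Pool.Agent.Lib.Pf720po.Decay.pw
      (δ / 2 / Fintype.card κ) (m j) :=
    summable_pi (pw_nonneg _) (pw_summable (by positivity))
  refine Summable.of_nonneg_of_le (fun m => ?_) (fun m => ?_) hU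
  · refine Set.indicator_nonneg (fun m _ => ?_) _
    have : 0 ≤ 1 + ‖pv a m‖ := by positivity
    positivity
  · by_cases hE : m ∈ Eset a
    · rw [Set.indicator_of_notMem (fun h : m ∈ (Eset a)ᶜ => h hE)]
      exact Finset.prod_nonneg fun j _ => pw_nonneg _ _
    · rw [Set.indicator_of_mem (show m ∈ (Eset a)ᶜ from hE)]
      have h1 : ∀ l, ((m l : ℝ) + 1) ^ (1 / 2 : ℝ) ≤ 1 + ‖pv a m‖ := by
        intro l
        by_contra h
        push Not at h
        exact hE ⟨l, h⟩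
      have hx0 : (0 : ℝ) < 1 + ‖pv a m‖ := by positivity
      have h2 : (1 + ‖pv a m‖) ^ (-δ) = ∏ _l : κ, (1 + ‖pv a m‖) ^ (-(δ / Fintype.card κ)) := by
        rw [Finset.prod_const, Finset.card_univ, ← Real.rpow_natCast, ← Real.rpow_mul hx0.le]
        congr 1
        field_simp
      rw [h2, ← Finset.prod_div_distrib]
      refine Finset.prod_le_prod (fun j _ => by positivity) fun j _ => ?_
      unfold Pool.Agent.Lib.Pf720po.Decay.pw
      refine div_le_div_of_nonneg_right ?_ (by positivity)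
      have h3 : (1 + ‖pv a m‖) ^ (-(δ / Fintype.card κ)) ≤
          (((m j : ℝ) + 1) ^ (1 / 2 : ℝ)) ^ (-(δ / Fintype.card κ)) :=
        Real.rpow_le_rpow_of_nonpos (by positivity) (h1 j) (by
          have : 0 < δ / Fintype.card κ := by positivity
          linarith)
      rw [← Real.rpow_mul (by positivity)] at h3
      refine h3.trans (le_of_eq ?_)
      congr 1
      ring

theorem retM_of_decay {Y : Type} {mY : MeasurableSpace Y} {ν : Measure Y} {d : ℕ}
    (R : MAct (Fin d → ℤ) Y ν) {B : Set Y} {C δ : ℝ} (hδ : 0 < δ)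
    (h : ∀ w : Fin d → ℤ, ν.real (B ∩ (R.S w) ⁻¹' B) ≤ C * (1 + ‖w‖) ^ (-δ)) : RetM R B := by
  intro κ _ _ D a ha
  refine ⟨Eset a, dz_Eset a ha, ?_⟩
  refine Summable.of_nonneg_of_le (fun m => Set.indicator_nonneg (fun m _ => by positivity) _)
    (fun m => ?_) ((summable_Eset a (half_pos hδ)).mul_left (Real.sqrt C))
  by_cases hE : m ∈ (Eset a)ᶜ
  · rw [Set.indicator_of_mem hE, Set.indicator_of_mem hE]
    have h0 : (0 : ℝ) < 1 + ‖pv a m‖ := by positivity
    have h1 : Real.sqrt (ν.real (B ∩ (R.S (pv a m)) ⁻¹' B)) ≤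
        Real.sqrt C * (1 + ‖pv a m‖) ^ (-(δ / 2)) := by
      refine (Real.sqrt_le_sqrt (h _)).trans ?_
      rw [Real.sqrt_mul' _ (by positivity), Real.sqrt_eq_rpow ((1 + ‖pv a m‖) ^ (-δ)),
        ← Real.rpow_mul h0.le]
      refine le_of_eq ?_
      congr 2
      ring
    rw [← mul_div_assoc]
    exact div_le_div_of_nonneg_right h1 (by positivity)
  · rw [Set.indicator_of_notMem hE, Set.indicator_of_notMem hE, mul_zero]

end Pool.Agent.Lib.Pf720pq
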