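import Pool.Agent.Lib.Pf720pq.FinalM
import Pool.Agent.Lib.Pf720pq.DecayM

/-!
# The coordinate forms of the hypotheses
-/

set_option autoImplicit false
set_option linter.unusedSectionVars false

open Finset MeasureTheory Filter Topology ProbabilityTheory
open scoped ENNReal

namespace Pool.Agent.Lib.Pf720pq

open Pool.Agent.Lib.Pf720ae
open Pool.Agent.Lib.Pf720pi (avg_reindex)
open Pool.Agent.Lib.Pf720mp (Ex mon mon_zero exs exs_apply exs_injective eval_eq_sum_ex)
open Pool.Agent.Lib.Pf720pm (pv Dep)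

/-- log-summability of the return correlations of `B` along polynomial maps, outside sets of density
zero -/
def LogS {Y : Type} [MeasurableSpace Y] (ν : Measure Y) {d : ℕ}
    (W : (Fin d → ℤ) → Y → Y) (B : Set Y) : Prop :=
  ∀ (k : ℕ) (p : Fin d → MvPolynomial (Fin k) ℤ), (∀ l, ∃ i, l ∈ (p i).vars) →
    ∃ E : Set (Fin k → ℕ),
      Tendsto (fun M : Fin k → ℕ => (∏ l, (M l : ℝ))⁻¹ *
        ∑ m ∈ Fintype.piFinset fun l => Finset.range (M l), E.indicator (fun _ => (1 : ℝ)) m)
        atTop (𝓝 0) ∧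
      Summable (Eᶜ.indicator fun m : Fin k → ℕ =>
        Real.sqrt (ν.real (B ∩ W (fun i =>
          MvPolynomial.eval (fun l => (m l : ℤ)) (p i)) ⁻¹' B)) / ∏ l, ((m l : ℝ) + 1))

section poly

variable {κ : Type} [Fintype κ] [DecidableEq κ] {D d k : ℕ}

/-- the polynomial map with the coefficients `a` -/
noncomputable def toP (e : κ ≃ Fin k) (a : Ex κ D → Fin d → ℤ) (i : Fin d) :
    MvPolynomial (Fin k) ℤ :=
  ∑ γ : Ex κ D, MvPolynomial.monomial (exs fun l => γ (e.symm l)) (a γ i)

lemma eval_toP (e : κ ≃ Fin k) (a : Ex κ D → Fin d → ℤ) (m : Fin k → ℕ) (i : Fin d) :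
    MvPolynomial.eval (fun l => (m l : ℤ)) (toP e a i) = pv a (fun l => m (e l)) i := by
  unfold toP pv
  rw [map_sum, Finset.sum_apply]
  refine Finset.sum_congr rfl fun γ _ => ?_
  rw [MvPolynomial.eval_monomial, Finsupp.prod_fintype _ _ (fun _ => pow_zero _), Pi.smul_apply,
    smul_eq_mul, mul_comm]
  congr 1
  unfold mon
  push_cast
  refine (Fintype.prod_equiv e _ _ fun l => ?_).symm
  rw [exs_apply, Equiv.symm_apply_apply]

lemma coeff_toP (e : κ ≃ Fin k) (a : Ex κ D → Fin d → ℤ) (γ : Ex κ D) (i : Fin d) :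
    (toP e a i).coeff (exs fun l => γ (e.symm l)) = a γ i := by
  unfold toP
  rw [MvPolynomial.coeff_sum, Finset.sum_eq_single γ]
  · rw [MvPolynomial.coeff_monomial, if_pos rfl]
  · intro γ' _ h
    rw [MvPolynomial.coeff_monomial, if_neg]
    intro h'
    apply h
    have h1 := exs_injective h'
    funext l
    have h2 := congrFun h1 (e l)
    simpa using h2
  · intro h
    exact absurd (Finset.mem_univ _) h

lemma vars_toP (e : κ ≃ Fin k) (a : Ex κ D → Fin d → ℤ) (ha : ∀ l, Dep a l) (l : Fin k) :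
    ∃ i, l ∈ (toP e a i).vars := by
  obtain ⟨γ, h1, h2⟩ := ha (e.symm l)
  obtain ⟨i, hi⟩ := Function.ne_iff.1 h1
  refine ⟨i, ?_⟩
  rw [MvPolynomial.mem_vars]
  refine ⟨exs fun l => γ (e.symm l), ?_, ?_⟩
  · rw [MvPolynomial.mem_support_iff, coeff_toP]
    exact hi
  · rw [Finsupp.mem_support_iff, exs_apply]
    intro h
    exact h2 (Fin.ext h)

lemma exists_dep (p : Fin d → MvPolynomial (Fin k) ℤ) (hp : ∀ l, ∃ i, l ∈ (p i).vars) :
    ∃ (D : ℕ) (a : Ex (Fin k) D → Fin d → ℤ), (∀ l, Dep a l) ∧ ∀ m : Fin k → ℕ,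
      (fun i => MvPolynomial.eval (fun l => (m l : ℤ)) (p i)) = pv a m := by
  have hD : ∀ i, (p i).totalDegree ≤ ∑ i, (p i).totalDegree := fun i =>
    Finset.single_le_sum (f := fun i => (p i).totalDegree) (fun _ _ => Nat.zero_le _)
      (Finset.mem_univ i)
  refine ⟨∑ i, (p i).totalDegree, fun γ i => (p i).coeff (exs γ), fun l => ?_, fun m => ?_⟩
  · obtain ⟨i, hi⟩ := hp l
    rw [MvPolynomial.mem_vars] at hi
    obtain ⟨s, hs, hl⟩ := hi
    have hle : ∀ l, s l < ∑ i, (p i).totalDegree + 1 := by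
      intro l
      have h2 : s l ≤ s.sum fun _ e => e := by
        by_cases hl : s l = 0
        · rw [hl]
          exact Nat.zero_le _
        · exact Finset.single_le_sum (f := fun l => s l) (fun _ _ => Nat.zero_le _)
            (Finsupp.mem_support_iff.2 hl)
      have h3 := MvPolynomial.le_totalDegree hs
      have h4 := hD i
      omega
    have he : exs (fun l => (⟨s l, hle l⟩ : Fin (∑ i, (p i).totalDegree + 1))) = s := by
      ext l
      rw [exs_apply]
    refine ⟨fun l => ⟨s l, hle l⟩, fun h => ?_, fun h => ?_⟩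
    · have h1 := congrFun h i
      simp only [he] at h1
      exact (MvPolynomial.mem_support_iff.1 hs) h1
    · exact (Finsupp.mem_support_iff.1 hl) (congrArg Fin.val h)
  · funext i
    rw [eval_eq_sum_ex (p i) (hD i) m]
    unfold pv
    rw [Finset.sum_apply]
    refine Finset.sum_congr rfl fun γ _ => ?_
    rw [Pi.smul_apply, smul_eq_mul, mul_comm]

end poly

theorem retM_of_logS {Y : Type} {mY : MeasurableSpace Y} {ν : Measure Y} {d : ℕ}
    (R : MAct (Fin d → ℤ) Y ν) {B : Set Y} (h : LogS ν R.S B) : RetM R B := by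
  intro κ _ _ D a ha
  set e : κ ≃ Fin (Fintype.card κ) := Fintype.equivFin κ
  obtain ⟨E, hE, hs⟩ := h (Fintype.card κ) (toP e a) (vars_toP e a ha)
  refine ⟨{m | (fun l => m (e.symm l)) ∈ E}, ?_, ?_⟩
  · unfold DZ
    have h1 : Tendsto (fun M : Fin (Fintype.card κ) → ℕ => avg M (E.indicator fun _ => (1 : ℝ)))
        atTop (𝓝 0) := hE
    have hre : Tendsto (fun M : κ → ℕ => fun l : Fin (Fintype.card κ) => M (e.symm l))
        atTop atTop := by
      rw [tendsto_atTop]
      intro b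
      filter_upwards [eventually_ge_atTop (fun l : κ => b (e l))] with M hM l
      have := hM (e.symm l)
      simpa using this
    refine (h1.comp hre).congr fun M => ?_
    rw [avg_reindex e M]
    simp only [Function.comp]
    congr 1
    funext m
    have e1 : ((fun l => m (e l)) ∈ {m : κ → ℕ | (fun l => m (e.symm l)) ∈ E}) ↔ m ∈ E := by
      rw [Set.mem_setOf_eq]
      simp only [Equiv.apply_symm_apply]
    by_cases hm : m ∈ E
    · rw [Set.indicator_of_mem hm, Set.indicator_of_mem (e1.2 hm)]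
    · rw [Set.indicator_of_notMem hm, Set.indicator_of_notMem (fun h => hm (e1.1 h))]
  · have h2 := (Equiv.summable_iff (Equiv.arrowCongr e (Equiv.refl ℕ))).2 hs
    refine h2.congr fun m => ?_
    simp only [Function.comp]
    have e0 : (Equiv.arrowCongr e (Equiv.refl ℕ)) m = fun l => m (e.symm l) := by
      funext l
      simp [Equiv.arrowCongr]
    rw [e0]
    have e1 : (m ∈ ({m : κ → ℕ | (fun l => m (e.symm l)) ∈ E})ᶜ) ↔
        (fun l => m (e.symm l)) ∈ Eᶜ := Iff.rfl
    by_cases hm : (fun l => m (e.symm l)) ∈ Eᶜ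
    · rw [Set.indicator_of_mem hm, Set.indicator_of_mem (e1.2 hm)]
      have e2 : (fun i => MvPolynomial.eval (fun l => ((m (e.symm l) : ℕ) : ℤ)) (toP e a i)) =
          pv a m := by
        funext i
        rw [eval_toP e a (fun l => m (e.symm l)) i]
        simp only [Equiv.symm_apply_apply]
      rw [e2]
      congr 1
      exact (Fintype.prod_equiv e _ _ fun l => by simp).symm
    · rw [Set.indicator_of_notMem hm, Set.indicator_of_notMem (fun h => hm (e1.1 h))]

theorem logS_of_decay {Y : Type} {mY : MeasurableSpace Y} {ν : Measure Y} {d : ℕ}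
    (R : MAct (Fin d → ℤ) Y ν) {B : Set Y} {C δ : ℝ} (hδ : 0 < δ)
    (h : ∀ w : Fin d → ℤ, ν.real (B ∩ (R.S w) ⁻¹' B) ≤ C * (1 + ‖w‖) ^ (-δ)) : LogS ν R.S B := by
  intro k p hp
  obtain ⟨D, a, ha, hpa⟩ := exists_dep p hp
  obtain ⟨E, hE, hs⟩ := retM_of_decay R hδ h (Fin k) D a ha
  refine ⟨E, hE, hs.congr fun m => ?_⟩
  simp only [hpa]

end Pool.Agent.Lib.Pf720pq
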