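import Pool.Agent.Lib.Pf720po.Recouple
import Pool.Agent.Lib.Pf720mp.PolL2
import Pool.Agent.Lib.Pf720pm.Coef

/-!
# Polynomial averages with arbitrary exponents, coefficient form
-/

set_option autoImplicit false
set_option linter.unusedSectionVars false

open MeasureTheory Filter Topology ProbabilityTheory
open scoped ENNReal NNReal

namespace Pool.Agent.Lib.Pf720pq

open Pool.Agent.Lib.Pf720ae Pool.Agent.Lib.Pf720gs
open Pool.Agent.Lib.Pf720mp (Ex mon mon_zero Av bx ae_tendsto_bdd_mp act_max)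
open Pool.Agent.Lib.Pf720pm (pv pv_add pv_sub pv_zero Dep pv_update)

section rep

variable {κ : Type} [Fintype κ] [DecidableEq κ] {D d : ℕ}

/-- the additive extension of a polynomial map -/
def lv (a : Ex κ D → Fin d → ℤ) (v : Ex κ D → ℕ) : Fin d → ℤ := ∑ γ, (v γ : ℤ) • a γ

lemma lv_add (a : Ex κ D → Fin d → ℤ) (v w : Ex κ D → ℕ) : lv a (v + w) = lv a v + lv a w := by
  unfold lv
  rw [← Finset.sum_add_distrib]
  refine Finset.sum_congr rfl fun γ _ => ?_
  rw [← add_smul, Pi.add_apply]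
  push_cast
  rfl

lemma lv_mon (a : Ex κ D → Fin d → ℤ) (m : κ → ℕ) : lv a (mon m) = pv a m := rfl

end rep

variable {X : Type} {mX : MeasurableSpace X} {μ : Measure X} {κ : Type} [Fintype κ]
  [DecidableEq κ] {d D : ℕ}

/-- polynomial averages for several copies of an action -/
lemma pzM [IsProbabilityMeasure μ] (act : MAct (Fin d → ℤ) X μ) {C : Type} [Fintype C]
    (a : C → Ex κ D → Fin d → ℤ)
    {F : (C → X) → ℝ} (hF : Measurable F) (hF1 : ∀ ω, |F ω| ≤ 1) :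
    ∀ᵐ ω ∂(Measure.pi fun _ : C => μ), Cvg fun m : κ → ℕ =>
      F (fun c => act.S (pv (a c) m) (ω c)) := by
  classical
  set R : (Ex κ D → ℕ) → (C → X) → (C → X) := fun v ω c => act.S (lv (a c) v) (ω c) with hR
  have hadd : ∀ m n x, R (m + n) x = R m (R n x) := by
    intro m n x
    funext c
    simp only [hR]
    rw [lv_add, act.add]
  have hmp : ∀ m, MeasurePreserving (R m) (Measure.pi fun _ : C => μ)
      (Measure.pi fun _ : C => μ) := fun m => measurePreserving_pi _ _ fun c => act.mp _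
  have hfc : Measurable fun x => (F x : ℂ) := Complex.measurable_ofReal.comp hF
  have hB : ∀ x, ‖(F x : ℂ)‖ ≤ 1 := fun x => by
    rw [Complex.norm_real]; exact hF1 x
  have hfin : ∫⁻ x, ‖(F x : ℂ)‖ₑ ^ 2 ∂(Measure.pi fun _ : C => μ) ≠ ⊤ := by
    have h3 : ∫⁻ x, ‖(F x : ℂ)‖ₑ ^ 2 ∂(Measure.pi fun _ : C => μ) ≤
        ∫⁻ _, 1 ∂(Measure.pi fun _ : C => μ) := by
      refine lintegral_mono fun x => ?_
      have h4 : ‖(F x : ℂ)‖ₑ ≤ 1 := by
        rw [← ofReal_norm]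
        exact ENNReal.ofReal_le_one.2 (hB x)
      exact pow_le_one₀ zero_le h4
    refine ne_top_of_le_ne_top ?_ h3
    rw [lintegral_one]
    exact measure_ne_top _ _
  filter_upwards [ae_tendsto_bdd_mp hadd hmp hfc hB hfin] with x hx
  obtain ⟨ℓ, hℓ⟩ := hx
  refine ⟨ℓ.re, ?_⟩
  have h3 := (Complex.continuous_re.tendsto ℓ).comp hℓ
  refine h3.congr fun M => ?_
  simp only [Function.comp_apply, Av]
  have h4 : (∏ l, (M l : ℂ))⁻¹ * ∑ m ∈ bx M, (F (R (mon m) x) : ℂ) =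
      (((∏ l, (M l : ℝ))⁻¹ * ∑ m ∈ bx M, F (R (mon m) x) : ℝ) : ℂ) := by
    push_cast; rfl
  rw [h4, Complex.ofReal_re]
  rfl

/-- the strong maximal inequality, with a constant depending only on the number of variables and
the degree -/
lemma maxUnif (κ : Type) [Fintype κ] [DecidableEq κ] (D : ℕ) : ∃ A : ℝ≥0∞, A ≠ ⊤ ∧
    ∀ (d : ℕ) (X : Type) (mX : MeasurableSpace X) (μ : Measure X) (act : MAct (Fin d → ℤ) X μ)
      (a : Ex κ D → Fin d → ℤ) (g : X → ℝ≥0∞), Measurable g →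
      ∫⁻ x, (NS (fun (m : κ → ℕ) x => act.S (pv a m) x) g x) ^ 2 ∂μ ≤ A * ∫⁻ x, (g x) ^ 2 ∂μ := by
  obtain ⟨A, hA, h⟩ := act_max κ D
  refine ⟨A, hA, fun d X mX μ act a g hg => ?_⟩
  exact h X μ (fun v x => act.S (lv a v) x) (fun m n x => by rw [lv_add, act.add])
    (fun m => act.mp _) g hg

lemma maxBdM (act : MAct (Fin d → ℤ) X μ) (a : Ex κ D → Fin d → ℤ) :
    MaxBd μ (fun (m : κ → ℕ) x => act.S (pv a m) x) := by
  obtain ⟨A, hA, h⟩ := maxUnif κ D
  exact ⟨A, hA, fun g hg => h d X mX μ act a g hg⟩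

/-- the variables of the decoupled Gaussian system, arbitrary exponents -/
noncomputable def aE {V : Type} [AddCommGroup V] [Module ℝ V] {κ : Type} {d : ℕ}
    {J : Type} [Fintype J] (S : (Fin d → ℤ) → V →ₗ[ℝ] V) (e : J → (κ → ℕ) → Fin d → ℤ) (h : J → V)
    (m : κ → ℕ) : J ⊕ (J × J) → V := Sum.elim
  (fun j => Real.sqrt (Fintype.card J) • S (e j m) (h j))
  (fun p => Real.sqrt (1 / 2) • (S (e p.2 m - e p.1 m) (h p.2) + h p.1))

end Pool.Agent.Lib.Pf720pq
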