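import Pool.Agent.Lib.Pf720po.Coll
import Pool.Agent.Lib.Pf720pq.Base

/-!
# Collisions have density zero, arbitrary polynomial exponents
-/

set_option autoImplicit false
set_option linter.unusedSectionVars false

open MeasureTheory Filter Topology ProbabilityTheory
open scoped ENNReal

namespace Pool.Agent.Lib.Pf720pq

open Pool.Agent.Lib.Pf720ae
open Pool.Agent.Lib.Pf720po (IsPoisson tendsto_avg_zero ae_summable)
open Pool.Agent.Lib.Pf720po.CollAux (lintegral_NS_le lintegral_ind_sq rpow_half_le tendsto_restrict)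
open Pool.Agent.Lib.Pf720pi (glue avg_glue)
open Pool.Agent.Lib.Pf720mp (Ex mon mon_zero)
open Pool.Agent.Lib.Pf720pm (pv pv_add pv_sub pv_zero Dep pv_update)

/-- sets of density zero along unrestricted boxes -/
def DZ {κ : Type} [Fintype κ] [DecidableEq κ] (E : Set (κ → ℕ)) : Prop :=
  Tendsto (fun M : κ → ℕ => avg M (E.indicator fun _ => (1 : ℝ))) atTop (𝓝 0)

/-- summability of the return correlations of `B` along all polynomial maps, outside sets of
density zero -/
def RetM {Y : Type} [MeasurableSpace Y] {ν : Measure Y} {d : ℕ} (R : MAct (Fin d → ℤ) Y ν)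
    (B : Set Y) : Prop :=
  ∀ (κ : Type) [Fintype κ] [DecidableEq κ] (D : ℕ) (a : Ex κ D → Fin d → ℤ), (∀ l, Dep a l) →
    ∃ E : Set (κ → ℕ), DZ E ∧ Summable (Eᶜ.indicator fun m : κ → ℕ =>
      Real.sqrt (ν.real (B ∩ (R.S (pv a m)) ⁻¹' B)) / ∏ l, ((m l : ℝ) + 1))

section split

variable {κ : Type} [Fintype κ] [DecidableEq κ] {D d : ℕ} (vis : κ → Prop) [DecidablePred vis]

/-- gluing exponents -/
def gex (γ : Ex {l // vis l} D) (δ : Ex {l // ¬ vis l} D) : Ex κ D :=
  fun l => if h : vis l then γ ⟨l, h⟩ else δ ⟨l, h⟩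

lemma sum_gex {A : Type} [AddCommMonoid A] (f : Ex κ D → A) :
    ∑ γ, f γ = ∑ δ : Ex {l // ¬ vis l} D, ∑ γ : Ex {l // vis l} D, f (gex vis γ δ) := by
  rw [Finset.sum_comm, ← Fintype.sum_prod_type (f := fun p : Ex {l // vis l} D × Ex {l // ¬ vis l} D =>
    f (gex vis p.1 p.2))]
  exact Fintype.sum_equiv (Equiv.piEquivPiSubtypeProd vis fun _ => Fin (D + 1)) _ _ fun γ => by
    congr 1
    funext l
    unfold gex
    by_cases h : vis l
    · simp [h]
    · simp [h]

lemma mon_gex (a : {l // vis l} → ℕ) (b : {l // ¬ vis l} → ℕ) (γ : Ex {l // vis l} D)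
    (δ : Ex {l // ¬ vis l} D) : mon (glue vis a b) (gex vis γ δ) = mon a γ * mon b δ := by
  unfold mon
  rw [← Fintype.prod_subtype_mul_prod_subtype vis]
  congr 1
  · refine Finset.prod_congr rfl fun l _ => ?_
    unfold glue gex
    rw [dif_pos l.2, dif_pos l.2]
  · refine Finset.prod_congr rfl fun l _ => ?_
    unfold glue gex
    rw [dif_neg l.2, dif_neg l.2]

/-- freezing the visible variables -/
def frz (q : Ex κ D → Fin d → ℤ) (a : {l // vis l} → ℕ) : Ex {l // ¬ vis l} D → Fin d → ℤ :=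
  fun δ => ∑ γ : Ex {l // vis l} D, (mon a γ : ℤ) • q (gex vis γ δ)

lemma pv_frz (q : Ex κ D → Fin d → ℤ) (a : {l // vis l} → ℕ) (b : {l // ¬ vis l} → ℕ) :
    pv q (glue vis a b) = pv (frz vis q a) b := by
  unfold pv frz
  rw [sum_gex vis]
  refine Finset.sum_congr rfl fun δ _ => ?_
  rw [Finset.smul_sum]
  refine Finset.sum_congr rfl fun γ _ => ?_
  rw [mon_gex, smul_smul]
  push_cast
  rw [mul_comm]

/-- restriction to the visible variables -/
def rsv (p : Ex κ D → Fin d → ℤ) : Ex {l // vis l} D → Fin d → ℤ := fun γ => p (gex vis γ 0)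

lemma pv_rsv {p : Ex κ D → Fin d → ℤ} (hp : ∀ l, ¬ vis l → ¬ Dep p l) (a : {l // vis l} → ℕ)
    (b : {l // ¬ vis l} → ℕ) : pv p (glue vis a b) = pv (rsv vis p) a := by
  unfold pv rsv
  rw [sum_gex vis]
  rw [Finset.sum_eq_single (0 : Ex {l // ¬ vis l} D)]
  · refine Finset.sum_congr rfl fun γ _ => ?_
    rw [mon_gex, mon_zero, mul_one]
  · intro δ _ hδ
    obtain ⟨l, hl⟩ := Function.ne_iff.1 hδ
    refine Finset.sum_eq_zero fun γ _ => ?_
    have h0 : p (gex vis γ δ) = 0 := by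
      by_contra h
      refine hp l.1 l.2 ⟨gex vis γ δ, h, ?_⟩
      unfold gex
      rw [dif_neg l.2]
      exact hl
    rw [h0, smul_zero]
  · intro h
    exact absurd (Finset.mem_univ _) h

lemma dep_rsv {p : Ex κ D → Fin d → ℤ} (hp : ∀ l, ¬ vis l → ¬ Dep p l) (l : {l // vis l})
    (hl : Dep p l.1) : Dep (rsv vis p) l := by
  obtain ⟨γ, hγ, hγl⟩ := hl
  refine ⟨fun l => γ l.1, ?_, hγl⟩
  unfold rsv
  have h : gex vis (fun l : {l // vis l} => γ l.1) 0 = γ := by
    funext l'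
    unfold gex
    split_ifs with h
    · rfl
    · by_contra hne
      exact hp l' h ⟨γ, hγ, fun h0 => hne (by rw [h0]; rfl)⟩
  rw [h]
  exact hγ

end split

variable {X Y : Type} {mX : MeasurableSpace X} {mY : MeasurableSpace Y}
  {κ : Type} [Fintype κ] [DecidableEq κ] {d D : ℕ}

theorem coll_zeroM {μ : Measure X} [IsProbabilityMeasure μ] {ν : Measure Y} {N : X → Measure Y}
    (hN : IsPoisson μ ν N) (act : MAct (Fin d → ℤ) X μ) (R : MAct (Fin d → ℤ) Y ν)
    (hNR : ∀ w x, N (act.S w x) = (N x).map (R.S w)) {B : Set Y} (hB : MeasurableSet B)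
    (hνB : ν B < ⊤) (hret : RetM R B) (q q' : Ex κ D → Fin d → ℤ)
    (hqq' : ∃ l, Dep (q' - q) l) :
    ∀ᵐ x ∂μ, Tendsto (fun M : κ → ℕ => avg M fun m =>
      if N x ((R.S (pv q m)) ⁻¹' B ∩ (R.S (pv q' m)) ⁻¹' B) = 0 then (0 : ℝ) else 1)
      atTop (𝓝 0) := by
  classical
  obtain ⟨vis, hvis⟩ : ∃ vis : κ → Prop, ∀ l, vis l ↔ Dep (q' - q) l := ⟨_, fun _ => Iff.rfl⟩
  obtain ⟨l₀, hl₀⟩ := hqq'
  have hv0 : vis l₀ := (hvis l₀).2 hl₀
  have : Nonempty {l // vis l} := ⟨⟨l₀, hv0⟩⟩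
  have hnv : ∀ l, ¬ vis l → ¬ Dep (q' - q) l := fun l hl h => hl ((hvis l).2 h)
  set p : Ex {l // vis l} D → Fin d → ℤ := rsv vis (q' - q) with hpdef
  have hp : ∀ l, Dep p l := fun l => dep_rsv vis hnv l ((hvis l.1).1 l.2)
  have hev : ∀ a b, pv q' (glue vis a b) = pv p a + pv q (glue vis a b) := by
    intro a b
    rw [hpdef, ← pv_rsv vis hnv a b, pv_sub, sub_add_cancel]
  -- the sets
  obtain ⟨Dd, hD⟩ : ∃ Dd : ({l // vis l} → ℕ) → Set Y, ∀ a, Dd a = B ∩ (R.S (pv p a)) ⁻¹' B :=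
    ⟨_, fun _ => rfl⟩
  have hDm : ∀ a, MeasurableSet (Dd a) := by
    intro a
    rw [hD]
    exact hB.inter ((R.mp _).measurable hB)
  have hDν : ∀ a, ν (Dd a) < ⊤ := by
    intro a
    rw [hD]
    exact (measure_mono Set.inter_subset_left).trans_lt hνB
  have hset : ∀ a b, (R.S (pv q (glue vis a b))) ⁻¹' B ∩ (R.S (pv q' (glue vis a b))) ⁻¹' B =
      (R.S (pv q (glue vis a b))) ⁻¹' (Dd a) := by
    intro a b
    ext y
    simp only [hD, Set.mem_inter_iff, Set.mem_preimage]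
    rw [hev a b, R.add]
  have hNx : ∀ a b x, N x ((R.S (pv q (glue vis a b))) ⁻¹' B ∩
      (R.S (pv q' (glue vis a b))) ⁻¹' B) = N (act.S (pv q (glue vis a b)) x) (Dd a) := by
    intro a b x
    rw [hset, hNR, Measure.map_apply (R.mp _).measurable (hDm a)]
  -- the functions
  obtain ⟨F, hF⟩ : ∃ F : ({l // vis l} → ℕ) → X → ℝ,
      ∀ a x, F a x = if N x (Dd a) = 0 then 0 else 1 := ⟨_, fun _ _ => rfl⟩
  have hF0 : ∀ a x, 0 ≤ F a x := by
    intro a x
    rw [hF]
    split_ifs <;> norm_num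
  have hF1 : ∀ a x, F a x ≤ 1 := by
    intro a x
    rw [hF]
    split_ifs <;> norm_num
  have hmeasN : ∀ a, Measurable fun x => N x (Dd a) := fun a =>
    (Measure.measurable_coe (hDm a)).comp hN.1
  have hms : ∀ a, MeasurableSet {x | N x (Dd a) = 0} := fun a =>
    (hmeasN a) (measurableSet_singleton 0)
  have hFm : ∀ a, Measurable (F a) := by
    intro a
    have : F a = fun x => if N x (Dd a) = 0 then (0 : ℝ) else 1 := funext fun x => hF a x
    rw [this]
    exact Measurable.ite (hms a) measurable_const measurable_const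
  obtain ⟨S₂, hS₂⟩ : ∃ S₂ : ({l // vis l} → ℕ) → ({l // ¬ vis l} → ℕ) → X → X,
      ∀ a b x, S₂ a b x = act.S (pv (frz vis q a) b) x := ⟨_, fun _ _ _ => rfl⟩
  have hS₂m : ∀ a b, Measurable (S₂ a b) := by
    intro a b
    have : S₂ a b = act.S (pv (frz vis q a) b) := funext fun x => hS₂ a b x
    rw [this]
    exact (act.mp _).measurable
  obtain ⟨A, hA, hAm⟩ := maxUnif {l // ¬ vis l} D
  have hAg : ∀ a, ∀ g : X → ℝ≥0∞, Measurable g → ∫⁻ x, (NS (S₂ a) g x) ^ 2 ∂μ ≤
      A * ∫⁻ x, (g x) ^ 2 ∂μ := by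
    intro a g hg
    have : S₂ a = fun b x => act.S (pv (frz vis q a) b) x :=
      funext fun b => funext fun x => hS₂ a b x
    rw [this]
    exact hAm d X mX μ act (frz vis q a) g hg
  obtain ⟨G, hG⟩ : ∃ G : ({l // vis l} → ℕ) → X → ℝ≥0∞,
      ∀ a, G a = fun x => ENNReal.ofReal (F a x) := ⟨_, fun _ => rfl⟩
  have hGm : ∀ a, Measurable (G a) := by
    intro a
    rw [hG]
    exact (hFm a).ennreal_ofReal
  obtain ⟨E, hE, hEs⟩ := hret {l // vis l} D p hp
  -- the maximal functions, outside the exceptional set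
  obtain ⟨H, hH⟩ : ∃ H : ({l // vis l} → ℕ) → X → ℝ≥0∞,
      ∀ a, H a = if a ∈ E then fun _ => 0 else NS (S₂ a) (G a) := ⟨_, fun _ => rfl⟩
  have hHm : ∀ a, Measurable (H a) := by
    intro a
    rw [hH]
    split_ifs
    · exact measurable_const
    · exact measurable_NS (hS₂m a) (hGm a)
  obtain ⟨bd, hbd⟩ : ∃ bd : ({l // vis l} → ℕ) → ℝ,
      ∀ a, bd a = if a ∈ E then 0 else Real.sqrt A.toReal * Real.sqrt (ν.real (Dd a)) :=
    ⟨_, fun _ => rfl⟩
  have hbd0 : ∀ a, 0 ≤ bd a := by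
    intro a
    rw [hbd]
    split_ifs
    · exact le_rfl
    · positivity
  have hHi : ∀ a, ∫⁻ x, H a x ∂μ ≤ ENNReal.ofReal (bd a) := by
    intro a
    rw [hH, hbd]
    split_ifs with haE
    · simp
    · have h2 := lintegral_NS_le (hS₂m a) (hAg a) (hGm a)
      have h3 : ∫⁻ x, (G a x) ^ 2 ∂μ ≤ ν (Dd a) := by
        have h4 : ∫⁻ x, (G a x) ^ 2 ∂μ = μ {x | ¬ N x (Dd a) = 0} := by
          rw [← lintegral_ind_sq (P := fun x => N x (Dd a) = 0) (hms a).compl]
          refine lintegral_congr fun x => ?_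
          rw [hG]
          simp only [hF]
        rw [h4]
        exact hN.measure_ne_zero_le (hDm a) (hDν a)
      refine h2.trans ((ENNReal.rpow_le_rpow (mul_le_mul_right h3 A) (by norm_num)).trans ?_)
      exact rpow_half_le hA (hDν a).ne
  have hsum : Summable fun a : {l // vis l} → ℕ => bd a / ∏ l, ((a l : ℝ) + 1) := by
    have h1 := hEs.mul_left (Real.sqrt A.toReal)
    refine h1.congr fun a => ?_
    rw [hbd]
    by_cases haE : a ∈ E
    · rw [if_pos haE, Set.indicator_of_notMem (show a ∉ Eᶜ from fun h => h haE), mul_zero, zero_div]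
    · rw [if_neg haE, Set.indicator_of_mem (show a ∈ Eᶜ from haE), hD, mul_div_assoc]
  have hae := ae_summable hHm hbd0 hHi hsum
  filter_upwards [hae] with x hx
  obtain ⟨hfin, hsx⟩ := hx
  have h1 := ((tendsto_avg_zero (fun a => ENNReal.toReal_nonneg) hsx).add hE).comp
    (tendsto_restrict vis)
  rw [add_zero] at h1
  refine squeeze_zero' (Eventually.of_forall fun M => avg_nonneg M fun m => ?_) ?_ h1
  · split_ifs <;> norm_num
  · filter_upwards [eventually_pos (κ := κ)] with M hM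
    rw [avg_glue vis]
    simp only [Function.comp_def]
    rw [← avg_add]
    refine avg_mono _ fun a => ?_
    have h2 : ∀ b, (if N x ((R.S (pv q (glue vis a b))) ⁻¹' B ∩
        (R.S (pv q' (glue vis a b))) ⁻¹' B) = 0 then (0 : ℝ) else 1) =
        F a (S₂ a b x) := by
      intro b
      rw [hNx, hF, hS₂, pv_frz]
    simp only [h2]
    by_cases haE : a ∈ E
    · rw [Set.indicator_of_mem haE]
      have h3 : avg (fun l : {l // ¬ vis l} => M l.1) (fun b => F a (S₂ a b x)) ≤ 1 :=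
        avg_le_of_le zero_le_one fun b => hF1 a _
      have h4 : 0 ≤ (H a x).toReal := ENNReal.toReal_nonneg
      linarith
    · rw [Set.indicator_of_notMem haE, add_zero]
      have h3 : ENNReal.ofReal (avg (fun l : {l // ¬ vis l} => M l.1) fun b =>
          F a (S₂ a b x)) ≤ H a x := by
        rw [hH, if_neg haE, hG]
        exact ofReal_avg_le_NS (U := S₂ a) (M := fun l : {l // ¬ vis l} => M l.1) (fun l => hM l.1)
          (F a) (hF0 a) _
      exact (ENNReal.ofReal_le_iff_le_toReal (hfin a).ne).1 h3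

end Pool.Agent.Lib.Pf720pq
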