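import Pool.Agent.Lib.Pf720pq.Base

/-!
# Weighted recoupling of Gaussian averages, arbitrary exponents
-/

set_option autoImplicit false
set_option linter.unusedSectionVars false

open MeasureTheory Filter Topology ProbabilityTheory
open scoped ENNReal

namespace Pool.Agent.Lib.Pf720pq

open Pool.Agent.Lib.Pf720ae Pool.Agent.Lib.Pf720gs
open Pool.Agent.Lib.Pf720po (CSw CSw_of_ae_prod measurableSet_CSw)

variable {κ : Type} [Fintype κ] [DecidableEq κ]

variable {V X : Type} [AddCommGroup V] [Module ℝ V] {mX : MeasurableSpace X} {μ : Measure X}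
  [IsProbabilityMeasure μ] {d : ℕ} {J : Type} [Fintype J] [DecidableEq J]

theorem gauss_recoupleE (g : GF V X μ) (act : MAct (Fin d → ℤ) X μ) (S : (Fin d → ℤ) → V →ₗ[ℝ] V)
    (hS : ∀ w v x, g.G (S w v) x = g.G v (act.S w x))
    (hSadd : ∀ w w' v, S (w + w') v = S w (S w' v))
    (hB : ∀ w u v, g.B (S w u) (S w v) = g.B u v)
    (e : J → (κ → ℕ) → Fin d → ℤ) (h : J → V) (c : (κ → ℕ) → ℝ) (hc : ∀ m, |c m| ≤ 1)
    (hdec : ∀ᵐ ω ∂(Measure.pi fun _ : J ⊕ (J × J) => μ), CSw c fun m => g.GC (aE S e h m) ω) :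
    ∀ᵐ x ∂μ, CSw c fun m : κ → ℕ => ∑ j, g.G (h j) (act.S (e j m) x) := by
  have hQS : ∀ w v, g.Q (S w v) = g.Q v := fun w v => hB w v v
  set cst : ℝ := Real.sqrt (Fintype.card J) with hcst
  set σ : ℝ := Real.sqrt (1 / 2) with hσ
  have hcst2 : cst ^ 2 = (Fintype.card J : ℝ) := Real.sq_sqrt (by positivity)
  have hσ2 : σ ^ 2 = 1 / 2 := Real.sq_sqrt (by norm_num)
  -- the coupled system
  set v : (κ → ℕ) → V := fun m => ∑ j, S (e j m) (h j) with hv
  set b : (κ → ℕ) → (J × J) ⊕ (J × J) → V := fun m => Sum.elim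
    (fun p => σ • (S (e p.1 m) (h p.1) - S (e p.2 m) (h p.2)))
    (fun p => σ • (S (e p.2 m - e p.1 m) (h p.2) + h p.1)) with hb
  have hlaw : (Measure.pi fun _ : J ⊕ (J × J) => μ).map (fun ω m => g.GC (aE S e h m) ω) =
      (μ.prod (Measure.pi fun _ : (J × J) ⊕ (J × J) => μ)).map
        (fun p m => g.G (v m) p.1 + g.GC (b m) p.2) := by
    refine law_eq (fun m => g.measurable_GC _)
      (fun m => ((g.meas _).comp measurable_fst).add ((g.measurable_GC _).comp measurable_snd)) ?_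
    intro s t
    have e1 : ∀ ω, ∑ m ∈ s, t m * g.GC (aE S e h m) ω =
        g.GC (fun c => ∑ m ∈ s, t m • aE S e h m c) ω :=
      fun ω => g.GC_sum s t (aE S e h) ω
    have e2 : ∀ p : X × ((J × J) ⊕ (J × J) → X),
        ∑ m ∈ s, t m * (g.G (v m) p.1 + g.GC (b m) p.2) =
          g.G (∑ m ∈ s, t m • v m) p.1 + g.GC (fun c => ∑ m ∈ s, t m • b m c) p.2 := by
      intro p
      rw [← g.GC_sum, g.sum]
      simp only [g.smul, mul_add, Finset.sum_add_distrib]
    simp only [e1, e2]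
    rw [g.char_GC, g.char_prod]
    congr 3
    -- the quadratic forms agree
    set U : J → V := fun j => ∑ m ∈ s, t m • S (e j m) (h j) with hU
    have f1 : ∀ j, (∑ m ∈ s, t m • aE S e h m (Sum.inl j)) = cst • U j := by
      intro j
      simp only [aE, Sum.elim_inl, hU, Finset.smul_sum]
      exact Finset.sum_congr rfl fun m _ => smul_comm _ _ _
    have f2 : ∀ p : J × J, (∑ m ∈ s, t m • b m (Sum.inl p)) = σ • (U p.1 - U p.2) := by
      intro p
      simp only [hb, Sum.elim_inl, hU, ← Finset.sum_sub_distrib, Finset.smul_sum, ← smul_sub]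
      exact Finset.sum_congr rfl fun m _ => smul_comm _ _ _
    have f3 : (∑ m ∈ s, t m • v m) = ∑ j, U j := by
      simp only [hv, hU, Finset.smul_sum]
      rw [Finset.sum_comm]
    have f4 : ∀ p : J × J, (∑ m ∈ s, t m • aE S e h m (Sum.inr p)) =
        ∑ m ∈ s, t m • b m (Sum.inr p) := by
      intro p
      rfl
    rw [Fintype.sum_sum_type, Fintype.sum_sum_type, f3]
    simp only [f1, f2, f4, g.Q_smul, hcst2, hσ2]
    rw [Fintype.sum_prod_type (f := fun p : J × J => 1 / 2 * g.Q (U p.1 - U p.2))]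
    have h3 := g.lagrange U
    simp only [← Finset.mul_sum] at h3 ⊢
    rw [← add_assoc, h3]
  have hcoup := ae_transfer (fun m => g.measurable_GC _)
    (fun m => ((g.meas _).comp measurable_fst).add ((g.measurable_GC _).comp measurable_snd))
    hlaw (measurableSet_CSw c) hdec
  -- integrate out the copies
  have hfub : ∀ᵐ x ∂μ, ∀ᵐ ω ∂(Measure.pi fun _ : (J × J) ⊕ (J × J) => μ),
      CSw c fun m => g.G (v m) x + g.GC (b m) ω := Measure.ae_ae_of_ae_prod hcoup
  have hconst : ∀ m, ∑ c, g.Q (b m c) = ∑ p : J × J, (g.Q (h p.1) + g.Q (h p.2)) := by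
    intro m
    rw [Fintype.sum_sum_type, ← Finset.sum_add_distrib]
    refine Finset.sum_congr rfl fun p _ => ?_
    simp only [hb, Sum.elim_inl, Sum.elim_inr]
    rw [g.Q_smul, g.Q_smul, hσ2, ← hQS (e p.1 m)
      (S (e p.2 m - e p.1 m) (h p.2) + h p.1), map_add, ← hSadd,
      add_sub_cancel, g.Q_add, g.Q_sub, hQS, hQS,
      g.Bsymm (S (e p.2 m) (h p.2)) (S (e p.1 m) (h p.1))]
    ring
  filter_upwards [hfub] with x hx
  have h1 := CSw_of_ae_prod (P := Measure.pi fun _ : (J × J) ⊕ (J × J) => μ) hc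
    (k := fun m => g.G (v m) x) (r := fun m ω => g.GC (b m) ω) (fun m => g.measurable_GC _)
    (C := Real.exp (-(∑ p : J × J, (g.Q (h p.1) + g.Q (h p.2))) / 2)) (Real.exp_pos _).ne'
    (fun m => by rw [← hconst m]; exact (g.integral_cos_sin (b m) _).1)
    (fun m => by rw [← hconst m]; exact (g.integral_cos_sin (b m) _).2) hx
  have h2 : (fun m : κ → ℕ => g.G (v m) x) =
      fun m : κ → ℕ => ∑ j, g.G (h j) (act.S (e j m) x) := by
    funext m
    simp only [hv, g.sum, hS]
  rwa [h2] at h1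

end Pool.Agent.Lib.Pf720pq
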