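import Pool.Agent.Lib.Pf720po.Core
import Pool.Agent.Lib.Pf720pq.RecM

/-!
# The core theorem, arbitrary polynomial exponents
-/

set_option autoImplicit false
set_option linter.unusedSectionVars false

open MeasureTheory Filter Topology ProbabilityTheory
open scoped ENNReal

namespace Pool.Agent.Lib.Pf720pq

open Pool.Agent.Lib.Pf720ae Pool.Agent.Lib.Pf720gs
open Pool.Agent.Lib.Pf720po hiding wD wM measurable_wM abs_wM_le core core_dec core_rec
open Pool.Agent.Lib.Pf720mp (Ex mon mon_zero)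
open Pool.Agent.Lib.Pf720pm (pv pv_add pv_sub pv_zero Dep pv_update)

variable {V X Y : Type} [AddCommGroup V] [Module ℝ V] {mX : MeasurableSpace X}
  {mY : MeasurableSpace Y} {μ : Measure X}
  [IsProbabilityMeasure μ] {κ : Type} [Fintype κ] [DecidableEq κ] {d D : ℕ} {J : Type} [Fintype J]
  [DecidableEq J]

/-- the decoupled weights -/
noncomputable def wD (N : X → Measure Y) {ν : Measure Y} (R : MAct (Fin d → ℤ) Y ν) {A : Type}
    [Fintype A] (e' : A → (κ → ℕ) → Fin d → ℤ) (u : A → Y → ℝ) (ω' : A → X) (m : κ → ℕ) : ℝ :=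
  ∏ a, mf N (fun y => lift (Fintype.card A) (u a) (R.S (e' a m) y)) (ω' a)

/-- the decoupled system -/
theorem core_decM (g : GF V X μ) (act : MAct (Fin d → ℤ) X μ) (S : (Fin d → ℤ) → V →ₗ[ℝ] V)
    (hS : ∀ w v x, g.G (S w v) x = g.G v (act.S w x))
    {ν : Measure Y} {N : X → Measure Y} (hN : IsPoisson μ ν N) (R : MAct (Fin d → ℤ) Y ν)
    (hNR : ∀ w x, N (act.S w x) = (N x).map (R.S w))
    (q : J → Ex κ D → Fin d → ℤ) (h : J → V)
    {A : Type} [Fintype A] [DecidableEq A] {B : Set Y}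
    (q' : A → Ex κ D → Fin d → ℤ) (u : A → Y → ℝ)
    (hu : ∀ a, Amp (1 / (2 * ((Fintype.card A : ℝ) + 1))) B (u a)) :
    ∀ᵐ p ∂((Measure.pi fun _ : J ⊕ (J × J) => μ).prod (Measure.pi fun _ : A => μ)),
      CSw (wD N R (fun a m => pv (q' a) m) u p.2) (fun m => g.GC (aE S (fun j m => pv (q j) m) h m) p.1) := by
  let DG : J ⊕ (J × J) → Ex κ D → Fin d → ℤ := Sum.elim q (fun p => q p.2 - q p.1)
  have hDr : ∀ (p : J × J) (m : κ → ℕ), pv (DG (Sum.inr p)) m = pv (q p.2) m - pv (q p.1) m :=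
    fun p m => pv_sub _ _ _
  let DD : (J ⊕ (J × J)) ⊕ A → Ex κ D → Fin d → ℤ := Sum.elim DG q'
  let base : J ⊕ (J × J) → V := Sum.elim (fun j => Real.sqrt (Fintype.card J) • h j)
    (fun p => Real.sqrt (1 / 2) • h p.2)
  let exf : J ⊕ (J × J) → V := Sum.elim (fun _ => 0) (fun p => Real.sqrt (1 / 2) • h p.1)
  have e1 : ∀ (m : κ → ℕ) (ω : J ⊕ (J × J) → X), g.GC (aE S (fun j m => pv (q j) m) h m) ω =
      g.GC base (fun c => act.S (pv (DG c) m) (ω c)) + g.GC exf ω := by
    intro m ω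
    unfold GF.GC
    rw [← Finset.sum_add_distrib]
    refine Finset.sum_congr rfl fun c _ => ?_
    rcases c with j | p
    · simp only [aE, base, exf, Sum.elim_inl, DG]
      rw [g.smul, hS, g.smul, g.zero, add_zero]
    · simp only [aE, base, exf, Sum.elim_inr, hDr]
      rw [g.smul, g.add, hS, g.smul, g.smul, mul_add]
  let W : ((J ⊕ (J × J)) ⊕ A → X) → ℝ := fun ω =>
    ∏ a, mf N (lift (Fintype.card A) (u a)) (ω (Sum.inr a))
  have hWm : Measurable W := Finset.measurable_fun_prod _ fun a _ =>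
    (measurable_mf hN.1 (measurable_lift hu a) (finite_range_lift hu a)).comp
      (measurable_pi_apply _)
  have hW0 : ∀ ω, 0 ≤ W ω := fun ω => Finset.prod_nonneg fun a _ => (mf_pos _ _ _).le
  have hW1 : ∀ ω, W ω ≤ 1 := fun ω => Finset.prod_le_one (fun a _ => (mf_pos _ _ _).le)
    fun a _ => mf_le_one N (lift_nonneg hu a) (lift_le_one hu a) _
  let Gb : ((J ⊕ (J × J)) ⊕ A → X) → ℝ := fun ω => g.GC base (fun c => ω (Sum.inl c))
  have hGbm : Measurable Gb := (g.measurable_GC base).comp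
    (measurable_pi_iff.2 fun c => measurable_pi_apply _)
  have hpc := pzM (κ := κ) act DD (F := fun ω => W ω * Real.cos (Gb ω))
    (hWm.mul (Real.measurable_cos.comp hGbm)) (fun ω => by
      rw [abs_mul, abs_of_nonneg (hW0 ω)]
      exact mul_le_one₀ (hW1 ω) (abs_nonneg _) (Real.abs_cos_le_one _))
  have hps := pzM (κ := κ) act DD (F := fun ω => W ω * Real.sin (Gb ω))
    (hWm.mul (Real.measurable_sin.comp hGbm)) (fun ω => by
      rw [abs_mul, abs_of_nonneg (hW0 ω)]
      exact mul_le_one₀ (hW1 ω) (abs_nonneg _) (Real.abs_sin_le_one _))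
  have hWw : ∀ (ω : (J ⊕ (J × J)) ⊕ A → X) (m : κ → ℕ), W (fun c => act.S (pv (DD c) m) (ω c)) =
      wD N R (fun a m => pv (q' a) m) u (fun a => ω (Sum.inr a)) m := by
    intro ω m
    refine Finset.prod_congr rfl fun a _ => ?_
    exact mf_map (R.mp _).measurable (hNR _) (measurable_lift hu a) _
  have hdec : ∀ᵐ ω ∂(Measure.pi fun _ : (J ⊕ (J × J)) ⊕ A => μ),
      CSw (wD N R (fun a m => pv (q' a) m) u fun a => ω (Sum.inr a))
        (fun m => g.GC (aE S (fun j m => pv (q j) m) h m) (fun c => ω (Sum.inl c))) := by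
    filter_upwards [hpc, hps] with ω hc hs
    have hGG : ∀ m : κ → ℕ, Gb (fun c => act.S (pv (DD c) m) (ω c)) =
        g.GC base (fun c => act.S (pv (DG c) m) (ω (Sum.inl c))) := fun m => rfl
    constructor
    · refine ((hc.smul (Real.cos (g.GC exf fun c => ω (Sum.inl c)))).add
        (hs.smul (-Real.sin (g.GC exf fun c => ω (Sum.inl c))))).congr fun m => ?_
      show _ = wD N R (fun a m => pv (q' a) m) u _ m * Real.cos (g.GC (aE S (fun j m => pv (q j) m) h m) fun c => ω (Sum.inl c))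
      rw [e1, Real.cos_add, hWw, hGG]
      ring
    · refine ((hs.smul (Real.cos (g.GC exf fun c => ω (Sum.inl c)))).add
        (hc.smul (Real.sin (g.GC exf fun c => ω (Sum.inl c))))).congr fun m => ?_
      show _ = wD N R (fun a m => pv (q' a) m) u _ m * Real.sin (g.GC (aE S (fun j m => pv (q j) m) h m) fun c => ω (Sum.inl c))
      rw [e1, Real.sin_add, hWw, hGG]
      ring
  exact (measurePreserving_sumPiEquivProdPi_symm
    (fun _ : (J ⊕ (J × J)) ⊕ A => μ)).quasiMeasurePreserving.ae hdec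

/-- the recolored weights -/
noncomputable def wM (N : X → Measure Y) {ν : Measure Y} (R : MAct (Fin d → ℤ) Y ν) {A : Type}
    [Fintype A] (e' : A → (κ → ℕ) → Fin d → ℤ) (u : A → Y → ℝ) (x : X) (m : κ → ℕ) : ℝ :=
  mf N (mix u (fun a => R.S (e' a m))) x

lemma measurable_wM {N : X → Measure Y} (hN : Measurable N) {ν : Measure Y}
    (R : MAct (Fin d → ℤ) Y ν) {A : Type} [Fintype A] {B : Set Y}
    (e' : A → (κ → ℕ) → Fin d → ℤ) {u : A → Y → ℝ}
    (hu : ∀ a, Amp (1 / (2 * ((Fintype.card A : ℝ) + 1))) B (u a)) :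
    Measurable (wM N R e' u) :=
  measurable_pi_iff.2 fun m => measurable_mf hN
    (measurable_mix (fun a => (hu a).meas) (fun a => (R.mp _).measurable))
    (finite_range_mix (fun a => (hu a).fin) _)

lemma abs_wM_le {N : X → Measure Y} {ν : Measure Y}
    (R : MAct (Fin d → ℤ) Y ν) {A : Type} [Fintype A] {B : Set Y}
    (e' : A → (κ → ℕ) → Fin d → ℤ) {u : A → Y → ℝ}
    (hu : ∀ a, Amp (1 / (2 * ((Fintype.card A : ℝ) + 1))) B (u a)) (x : X) (m : κ → ℕ) :
    |wM N R e' u x m| ≤ 1 := by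
  unfold wM
  rw [abs_of_nonneg (mf_pos _ _ _).le]
  exact mf_le_one N (mix_nonneg hu _) (mix_le_one hu _) x

/-- after recoloring -/
theorem core_recM (g : GF V X μ) (act : MAct (Fin d → ℤ) X μ) (S : (Fin d → ℤ) → V →ₗ[ℝ] V)
    (hS : ∀ w v x, g.G (S w v) x = g.G v (act.S w x))
    {ν : Measure Y} {N : X → Measure Y} (hN : IsPoisson μ ν N) (R : MAct (Fin d → ℤ) Y ν)
    (hNR : ∀ w x, N (act.S w x) = (N x).map (R.S w))
    (q : J → Ex κ D → Fin d → ℤ) (h : J → V)
    {A : Type} [Fintype A] [DecidableEq A] {B : Set Y} (hB : MeasurableSet B) (hνB : ν B < ⊤)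
    (q' : A → Ex κ D → Fin d → ℤ) (u : A → Y → ℝ)
    (hu : ∀ a, Amp (1 / (2 * ((Fintype.card A : ℝ) + 1))) B (u a)) :
    ∀ᵐ x ∂μ, ∀ᵐ ω ∂(Measure.pi fun _ : J ⊕ (J × J) => μ),
      CSw (wM N R (fun a m => pv (q' a) m) u x) (fun m => g.GC (aE S (fun j m => pv (q j) m) h m) ω) := by
  have hdec3 : ∀ᵐ ω ∂(Measure.pi fun _ : J ⊕ (J × J) => μ), ∀ᵐ ω' ∂(Measure.pi fun _ : A => μ),
      CSw (wD N R (fun a m => pv (q' a) m) u ω') (fun m => g.GC (aE S (fun j m => pv (q j) m) h m) ω) :=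
    Measure.ae_ae_of_ae_prod (core_decM g act S hS hN R hNR q h q' u hu)
  have hstep3 : ∀ᵐ ω ∂(Measure.pi fun _ : J ⊕ (J × J) => μ), ∀ᵐ x ∂μ,
      CSw (wM N R (fun a m => pv (q' a) m) u x) (fun m => g.GC (aE S (fun j m => pv (q j) m) h m) ω) := by
    filter_upwards [hdec3] with ω hω
    have h1 := poisson_step (κ := κ) hN R hB hνB hu (fun a m => pv (q' a) m)
      (fun m => Real.cos (g.GC (aE S (fun j m => pv (q j) m) h m) ω)) (fun m => Real.abs_cos_le_one _)
      (by filter_upwards [hω] with ω' hω'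
          exact hω'.1.congr fun m => mul_comm _ _)
    have h2 := poisson_step (κ := κ) hN R hB hνB hu (fun a m => pv (q' a) m)
      (fun m => Real.sin (g.GC (aE S (fun j m => pv (q j) m) h m) ω)) (fun m => Real.abs_sin_le_one _)
      (by filter_upwards [hω] with ω' hω'
          exact hω'.2.congr fun m => mul_comm _ _)
    filter_upwards [h1, h2] with x hx1 hx2
    exact ⟨hx1.congr fun m => mul_comm _ _, hx2.congr fun m => mul_comm _ _⟩
  have hkm : Measurable fun ω : J ⊕ (J × J) → X => fun m : κ → ℕ => g.GC (aE S (fun j m => pv (q j) m) h m) ω :=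
    measurable_pi_iff.2 fun m => g.measurable_GC _
  have hM : Measurable (fun p : X × (J ⊕ (J × J) → X) =>
      ((wM N R (fun a m => pv (q' a) m) u p.1, fun m : κ → ℕ => g.GC (aE S (fun j m => pv (q j) m) h m) p.2) :
        ((κ → ℕ) → ℝ) × ((κ → ℕ) → ℝ))) :=
    ((measurable_wM hN.1 R _ hu).comp measurable_fst).prodMk (hkm.comp measurable_snd)
  have hMS := hM (measurableSet_CSw_prod (κ := κ))
  exact (Measure.ae_ae_comm (p := fun (x : X) (ω : J ⊕ (J × J) → X) =>
    CSw (wM N R (fun a m => pv (q' a) m) u x) (fun m : κ → ℕ => g.GC (aE S (fun j m => pv (q j) m) h m) ω)) hMS).2 hstep3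

theorem decouM (g : GF V X μ) (act : MAct (Fin d → ℤ) X μ) (S : (Fin d → ℤ) → V →ₗ[ℝ] V)
    (hS : ∀ w v x, g.G (S w v) x = g.G v (act.S w x))
    (hSadd : ∀ w w' v, S (w + w') v = S w (S w' v))
    (hBi : ∀ w u v, g.B (S w u) (S w v) = g.B u v)
    {ν : Measure Y} {N : X → Measure Y} (hN : IsPoisson μ ν N) (R : MAct (Fin d → ℤ) Y ν)
    (hNR : ∀ w x, N (act.S w x) = (N x).map (R.S w))
    (hind : Indep (⨆ v, MeasurableSpace.comap (g.G v) (borel ℝ))
      (MeasurableSpace.comap N inferInstance) μ)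
    (q : J → Ex κ D → Fin d → ℤ) (h : J → V)
    {A : Type} [Fintype A] [DecidableEq A] {B : Set Y} (hB : MeasurableSet B) (hνB : ν B < ⊤)
    (q' : A → Ex κ D → Fin d → ℤ) (u : A → Y → ℝ)
    (hu : ∀ a, Amp (1 / (2 * ((Fintype.card A : ℝ) + 1))) B (u a)) :
    ∀ᵐ x ∂μ, CSw (fun m : κ → ℕ => mf N (mix u (fun a => R.S (pv (q' a) m))) x)
      (fun m => ∑ j, g.G (h j) (act.S (pv (q j) m) x)) := by
  have hstep4 := core_recM g act S hS hN R hNR q h hB hνB q' u hu
  have hk'v : ∀ x (m : κ → ℕ), ∑ j, g.G (h j) (act.S (pv (q j) m) x) =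
      g.G (∑ j, S (pv (q j) m) (h j)) x := by
    intro x m
    simp only [g.sum, hS]
  have hk'v' : ∀ m : κ → ℕ, (fun x => ∑ j, g.G (h j) (act.S (pv (q j) m) x)) =
      g.G (∑ j, S (pv (q j) m) (h j)) := fun m => funext fun x => hk'v x m
  have hk'm : Measurable fun x => fun m : κ → ℕ => ∑ j, g.G (h j) (act.S (pv (q j) m) x) := by
    refine measurable_pi_iff.2 fun m => ?_
    rw [hk'v' m]
    exact g.meas _
  have hstep5 : ∀ᵐ x ∂μ, ∀ᵐ x' ∂μ, CSw (wM N R (fun a m => pv (q' a) m) u x)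
      (fun m => ∑ j, g.G (h j) (act.S (pv (q j) m) x')) := by
    filter_upwards [hstep4] with x hx
    exact gauss_recoupleE g act S hS hSadd hBi (fun j m => pv (q j) m) h (wM N R (fun a m => pv (q' a) m) u x) (abs_wM_le R _ hu x) hx
  -- independence
  have hindf : IndepFun (wM N R (fun a m => pv (q' a) m) u)
      (fun x => fun m : κ → ℕ => ∑ j, g.G (h j) (act.S (pv (q j) m) x)) μ := by
    have hle1 : MeasurableSpace.comap (wM N R (fun a m => pv (q' a) m) u) MeasurableSpace.pi ≤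
        MeasurableSpace.comap N inferInstance := by
      have hcomp : wM N R (fun a m => pv (q' a) m) u = wM (fun η : Measure Y => η) R (fun a m => pv (q' a) m) u ∘ N := rfl
      rw [hcomp, ← MeasurableSpace.comap_comp]
      exact MeasurableSpace.comap_mono (measurable_wM measurable_id R _ hu).comap_le
    have hle2 : MeasurableSpace.comap
        (fun x => fun m : κ → ℕ => ∑ j, g.G (h j) (act.S (pv (q j) m) x)) MeasurableSpace.pi ≤
        ⨆ v, MeasurableSpace.comap (g.G v) (borel ℝ) := by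
      unfold MeasurableSpace.pi
      rw [MeasurableSpace.comap_iSup]
      refine iSup_le fun m => ?_
      rw [MeasurableSpace.comap_comp]
      have e3 : ((fun b : (κ → ℕ) → ℝ => b m) ∘
          fun x => fun m : κ → ℕ => ∑ j, g.G (h j) (act.S (pv (q j) m) x)) =
          g.G (∑ j, S (pv (q j) m) (h j)) := hk'v' m
      rw [e3, BorelSpace.measurable_eq (α := ℝ)]
      exact le_iSup (fun v => MeasurableSpace.comap (g.G v) (borel ℝ)) _
    rw [IndepFun_iff_Indep]
    exact (indep_of_indep_of_le_right (indep_of_indep_of_le_left hind hle2) hle1).symm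
  exact ae_of_indep (measurable_wM hN.1 R _ hu) hk'm hindf measurableSet_CSw_prod hstep5

end Pool.Agent.Lib.Pf720pq
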