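import Pool.Agent.Lib.Pf720pq.MixedM
import Pool.Agent.Lib.Pf720pm.Factor
import Pool.Agent.Lib.Pf720po.Final

/-!
# Gaussian and Poisson factors of actions of `ℤ^d`, arbitrary polynomial exponents
-/

set_option autoImplicit false
set_option linter.unusedSectionVars false

open MeasureTheory Filter Topology ProbabilityTheory
open scoped ENNReal

namespace Pool.Agent.Lib.Pf720pq

open Pool.Agent.Lib.Pf720ae Pool.Agent.Lib.Pf720pi Pool.Agent.Lib.Pf720gs
open Pool.Agent.Lib.Pf720po (IsPoisson N_pw permActS isPoisson_trim indep_trim gen_KP KP)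
open Pool.Agent.Lib.Pf720mp (Ex mon exs eval_eq_sum_ex)
open Pool.Agent.Lib.Pf720pm (pv Dep IsPol PolR PolC cls isPol_cls polC_of_polR)

lemma exists_pvs {κ : Type} [Fintype κ] [DecidableEq κ] {d : ℕ} {J : Type} [Fintype J]
    {e : J → (κ → ℕ) → Fin d → ℤ} (h : ∀ j, IsPol (e j)) :
    ∃ (D : ℕ) (a : J → Ex κ D → Fin d → ℤ), ∀ j m, e j m = pv (a j) m := by
  choose P hP using h
  refine ⟨∑ j, ∑ i, (P j i).totalDegree, fun j γ i => (P j i).coeff (exs γ), fun j m => ?_⟩
  funext i
  have h1 : (P j i).totalDegree ≤ ∑ j, ∑ i, (P j i).totalDegree :=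
    (Finset.single_le_sum (f := fun i => (P j i).totalDegree)
      (fun _ _ => Nat.zero_le _) (Finset.mem_univ i)).trans
    (Finset.single_le_sum (f := fun j => ∑ i, (P j i).totalDegree)
      (fun _ _ => Nat.zero_le _) (Finset.mem_univ j))
  rw [hP, eval_eq_sum_ex (P j i) h1 m]
  unfold pv
  rw [Finset.sum_apply]
  refine Finset.sum_congr rfl fun γ _ => ?_
  rw [Pi.smul_apply, smul_eq_mul, mul_comm]

/-- passing from a trimmed measure to the measure -/
lemma polC_of_trim {X : Type} (m : MeasurableSpace X) {mX : MeasurableSpace X} {μ : Measure X}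
    [IsProbabilityMeasure μ] {d : ℕ} (T : Fin d → Equiv.Perm X)
    (hT : ∀ i, Measurable (T i) ∧ Measurable (T i).symm ∧ MeasurePreserving (T i) μ μ)
    (K : Set ℕ) (Q : (k : ℕ) → Set (Fin d → MvPolynomial (Fin k) ℤ))
    (hm : m ≤ mX) (h : @PolC X m (μ.trim hm) d T K Q m) : PolC μ T K Q m := by
  intro k hk n q f hqQ hf
  choose hfL hfm using hf
  set g : Fin n → X → ℂ := fun j => (hfm j).mk (f j) with hg
  have hgm : ∀ j, StronglyMeasurable[m] (g j) := fun j => (hfm j).stronglyMeasurable_mk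
  have hfg : ∀ j, f j =ᵐ[μ] g j := fun j => (hfm j).ae_eq_mk
  have hgL : ∀ j, eLpNorm (g j) ⊤ (μ.trim hm) < ⊤ := by
    intro j
    rw [eLpNorm_trim hm (hgm j), ← eLpNorm_congr_ae (hfg j)]
    exact (hfL j).2
  have h1 := h k hk n q g hqQ (fun j => ⟨⟨(hgm j).aestronglyMeasurable, hgL j⟩,
    (hgm j).aestronglyMeasurable⟩)
  have h2 := ae_of_ae_trim hm h1
  have hrep : ∀ᵐ x ∂μ, ∀ (j : Fin n) (w : Fin d → ℤ), f j (pw T w x) = g j (pw T w x) := by
    simp only [ae_all_iff]
    exact fun j w => (mp_pw T hT w).quasiMeasurePreserving.ae (hfg j)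
  filter_upwards [h2, hrep] with x hx hr
  obtain ⟨L, hL⟩ := hx
  refine ⟨L, hL.congr fun M => ?_⟩
  simp only [hr]

lemma poisson_trimM {V X Y : Type} [AddCommGroup V] [Module ℝ V] (m : MeasurableSpace X)
    {mX : MeasurableSpace X} {mY : MeasurableSpace Y} {μ : Measure X} [IsProbabilityMeasure μ]
    {d : ℕ}
    (g : GF V X μ) (act : MAct (Fin d → ℤ) X μ) (S : (Fin d → ℤ) → V →ₗ[ℝ] V)
    (hS : ∀ w v x, g.G (S w v) x = g.G v (act.S w x))
    (hSadd : ∀ w w' v, S (w + w') v = S w (S w' v))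
    (hBi : ∀ w u v, g.B (S w u) (S w v) = g.B u v)
    {ν : Measure Y} {N : X → Measure Y} (hN : IsPoisson μ ν N) (R : MAct (Fin d → ℤ) Y ν)
    (hNR : ∀ w x, N (act.S w x) = (N x).map (R.S w))
    (hind : Indep (⨆ v, MeasurableSpace.comap (g.G v) (borel ℝ))
      (MeasurableSpace.comap N inferInstance) μ)
    {B : ℕ → Set Y} (hBmono : Monotone B)
    (hB : ∀ r, MeasurableSet (B r)) (hνB : ∀ r, ν (B r) < ⊤) (hBU : ⋃ r, B r = Set.univ)
    (hret : ∀ r, RetM R (B r))
    (hm : m = (⨆ v, MeasurableSpace.comap (g.G v) (borel ℝ)) ⊔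
      MeasurableSpace.comap N inferInstance) (hmX : m ≤ mX)
    (hact : ∀ w, Measurable[m, m] (act.S w)) (K : Set ℕ)
    (Q : (k : ℕ) → Set (Fin d → MvPolynomial (Fin k) ℤ)) :
    @PolR X m (μ.trim hmX) d K (cls Q) act.S m := by
  intro κ _ _ J _ _ e F _ he hFm hF1
  obtain ⟨D, q, hq⟩ := exists_pvs fun j => (isPol_cls Q κ (e j) (he j)).1
  have hle1 : (⨆ v, MeasurableSpace.comap (g.G v) (borel ℝ)) ≤ m := by
    rw [hm]
    exact le_sup_left
  have hle2 : MeasurableSpace.comap N inferInstance ≤ m := by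
    rw [hm]
    exact le_sup_right
  have hgm : ∀ v, Measurable[m] (g.G v) := fun v =>
    (measurable_iSup_comap g.G v).mono hle1 le_rfl
  have hNm : Measurable[m] N := by
    rw [measurable_iff_comap_le]
    exact hle2
  have : @IsProbabilityMeasure X m (μ.trim hmX) := by
    refine @IsProbabilityMeasure.mk X m _ ?_
    rw [trim_measurableSet_eq hmX (@MeasurableSet.univ X m)]
    exact measure_univ
  have hN' := isPoisson_trim m hN hmX hNm
  have h1 := @realM V X Y _ _ m mY (μ.trim hmX) _ κ _ _ d D J _ _ (g.trim m hmX hgm)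
    (trimAct m act hmX hact) S hS hSadd hBi ν N hN' R hNR
    (indep_trim m hmX hle1 hle2 hind) B hBmono hB hνB hret ?_ q F hFm hF1
  · simp only [hq]
    exact h1
  intro D hD
  refine @gen_KP V X Y _ _ m mY (μ.trim hmX) _ (g.trim m hmX hgm) ν N hN' B hBmono hB hνB hBU D ?_
  have hD' : MeasurableSet[(⨆ v, MeasurableSpace.comap (g.G v) (borel ℝ)) ⊔
      MeasurableSpace.comap N inferInstance] D := by
    rw [← hm]
    exact hD
  exact hD'

/-- Gaussian and Poisson factors -/
theorem poisson_polC {X Y : Type} {mX : MeasurableSpace X} {mY : MeasurableSpace Y}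
    {μ : Measure X} [IsProbabilityMeasure μ]
    {d : ℕ} (T : Fin d → Equiv.Perm X)
    (hT : ∀ i, Measurable (T i) ∧ Measurable (T i).symm ∧ MeasurePreserving (T i) μ μ)
    (hcomm : ∀ i i', T i * T i' = T i' * T i) {I : Type} (ξ : I → X → ℝ)
    (hξm : ∀ i, Measurable (ξ i))
    (hξ : IsGaussianProcess (fun (p : I × (Fin d → ℤ)) x => ξ p.1 (pw T p.2 x)) μ)
    {ν : Measure Y} (R : Fin d → Equiv.Perm Y)
    (hR : ∀ i, Measurable (R i) ∧ Measurable (R i).symm ∧ MeasurePreserving (R i) ν ν)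
    (hRcomm : ∀ i i', R i * R i' = R i' * R i)
    {N : X → Measure Y} (hN : IsPoisson μ ν N) (hNT : ∀ i x, N (T i x) = (N x).map (R i))
    (hind : Indep (⨆ p : I × (Fin d → ℤ),
      MeasurableSpace.comap (fun x => ξ p.1 (pw T p.2 x)) (borel ℝ))
      (MeasurableSpace.comap N inferInstance) μ)
    {B : ℕ → Set Y} (hBmono : Monotone B)
    (hB : ∀ r, MeasurableSet (B r)) (hνB : ∀ r, ν (B r) < ⊤) (hBU : ⋃ r, B r = Set.univ)
    (hret : ∀ r, RetM (permActS R hR hRcomm) (B r))
    (K : Set ℕ) (Q : (k : ℕ) → Set (Fin d → MvPolynomial (Fin k) ℤ)) :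
    PolC μ T K Q ((⨆ p : I × (Fin d → ℤ),
      MeasurableSpace.comap (fun x => ξ p.1 (pw T p.2 x)) (borel ℝ)) ⊔
      MeasurableSpace.comap N inferInstance) := by
  set ζ : I × (Fin d → ℤ) → X → ℝ := fun p x => ξ p.1 (pw T p.2 x) with hζ
  have hζm : ∀ p, Measurable (ζ p) := fun p => (hξm _).comp (mp_pw T hT _).measurable
  set act : MAct (Fin d → ℤ) X μ := permAct T hT hcomm with hactdef
  set g : GF ((I × (Fin d → ℤ)) →₀ ℝ) X μ := fam hζm hξ with hg
  set S : (Fin d → ℤ) → ((I × (Fin d → ℤ)) →₀ ℝ) →ₗ[ℝ] ((I × (Fin d → ℤ)) →₀ ℝ) :=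
    fun w => Finsupp.lmapDomain ℝ ℝ (fun p => (p.1, p.2 + w)) with hSdef
  have hζS : ∀ (p : I × (Fin d → ℤ)) w x, ζ (p.1, p.2 + w) x = ζ p (act.S w x) := by
    intro p w x
    simp only [hζ, hactdef, permAct]
    rw [pw_add T hcomm]
    rfl
  have hlcS : ∀ w v x, lc ζ (S w v) x = lc ζ v (act.S w x) := by
    intro w v x
    induction v using Finsupp.induction_linear with
    | zero => simp [lc]
    | add u v hu hv => rw [map_add, lc_add, lc_add, hu, hv]
    | single p c =>
      have e : (Finsupp.single p c : (I × (Fin d → ℤ)) →₀ ℝ) = c • Finsupp.single p 1 := by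
        rw [Finsupp.smul_single, smul_eq_mul, mul_one]
      have e2 : S w (Finsupp.single p 1) = Finsupp.single (p.1, p.2 + w) 1 := by
        simp only [hSdef, Finsupp.lmapDomain_apply, Finsupp.mapDomain_single]
      rw [e, map_smul, lc_smul, lc_smul, e2, lc_single, lc_single, hζS]
  have hS : ∀ w v x, g.G (S w v) x = g.G v (act.S w x) := by
    intro w v x
    show lc ζ (S w v) x - ∫ z, lc ζ (S w v) z ∂μ = lc ζ v (act.S w x) - ∫ z, lc ζ v z ∂μ
    rw [hlcS]
    simp only [hlcS]
    rw [act.integral_comp w (measurable_lc hζm v)]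
  have hSadd : ∀ w w' v, S (w + w') v = S w (S w' v) := by
    intro w w' v
    simp only [hSdef, Finsupp.lmapDomain_apply]
    rw [← Finsupp.mapDomain_comp]
    congr 1
    funext p
    simp only [Function.comp]
    rw [add_assoc, add_comm w' w]
  have hBi : ∀ w u v, g.B (S w u) (S w v) = g.B u v := by
    intro w u v
    show ∫ x, g.G (S w u) x * g.G (S w v) x ∂μ = ∫ x, g.G u x * g.G v x ∂μ
    simp only [hS]
    exact act.integral_comp w (f := fun x => g.G u x * g.G v x) ((g.meas u).mul (g.meas v))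
  have hNR : ∀ w x, N (act.S w x) = (N x).map ((permActS R hR hRcomm).S w) := fun w x =>
    (N_pw T R (fun i => ⟨(hR i).1, (hR i).2.1⟩) hNT w x).2
  -- the generated σ-algebras
  have hgen : (⨆ v, MeasurableSpace.comap (g.G v) (borel ℝ)) =
      ⨆ p : I × (Fin d → ℤ), MeasurableSpace.comap (ζ p) (borel ℝ) := by
    refine le_antisymm (iSup_le fun v => ?_) (iSup_le fun p => ?_)
    · refine comap_le_of_measurable ?_
      have e : g.G v = fun x => (∑ p ∈ v.support, v p * ζ p x) - ∫ z, lc ζ v z ∂μ := by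
        funext x
        show lc ζ v x - ∫ z, lc ζ v z ∂μ = _
        rw [lc_eq_sum]
      rw [e]
      refine Measurable.sub_const ?_ _
      exact Finset.measurable_fun_sum _ fun p _ => (measurable_iSup_comap ζ p).const_mul _
    · have e : ζ p = fun x => g.G (Finsupp.single p 1) x + ∫ z, ζ p z ∂μ := by
        funext x
        show ζ p x = (lc ζ (Finsupp.single p 1) x - ∫ z, lc ζ (Finsupp.single p 1) z ∂μ) + _
        simp only [lc_single]
        ring
      refine comap_le_of_measurable ?_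
      rw [e]
      exact (measurable_iSup_comap g.G _).add_const _
  rw [← hgen]
  rw [← hgen] at hind
  have hmX : (⨆ v, MeasurableSpace.comap (g.G v) (borel ℝ)) ⊔
      MeasurableSpace.comap N inferInstance ≤ mX :=
    sup_le (iSup_le fun v => comap_le_of_measurable (g.meas v)) hN.1.comap_le
  have hact : ∀ w, Measurable[(⨆ v, MeasurableSpace.comap (g.G v) (borel ℝ)) ⊔
      MeasurableSpace.comap N inferInstance, (⨆ v, MeasurableSpace.comap (g.G v) (borel ℝ)) ⊔
      MeasurableSpace.comap N inferInstance] (act.S w) := by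
    intro w
    rw [measurable_iff_comap_le, MeasurableSpace.comap_sup, MeasurableSpace.comap_iSup]
    refine sup_le (iSup_le fun v => ?_) ?_
    · rw [MeasurableSpace.comap_comp]
      have e : g.G v ∘ act.S w = g.G (S w v) := by
        funext x
        exact (hS w v x).symm
      rw [e]
      exact (le_iSup (fun v => MeasurableSpace.comap (g.G v) (borel ℝ)) (S w v)).trans
        le_sup_left
    · rw [MeasurableSpace.comap_comp]
      have e : N ∘ act.S w = (fun η : Measure Y => η.map ((permActS R hR hRcomm).S w)) ∘ N := by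
        funext x
        exact hNR w x
      rw [e, ← MeasurableSpace.comap_comp]
      exact (MeasurableSpace.comap_mono
        (Measure.measurable_map _ ((permActS R hR hRcomm).mp w).measurable).comap_le).trans
        le_sup_right
  -- convergence for the generated σ-algebra
  have hRR := poisson_trimM _ g act S hS hSadd hBi hN (permActS R hR hRcomm) hNR hind hBmono hB hνB
    hBU hret rfl hmX hact K Q
  have hprob : @IsProbabilityMeasure X _ (μ.trim hmX) := by
    refine @IsProbabilityMeasure.mk X _ _ ?_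
    rw [trim_measurableSet_eq hmX (@MeasurableSet.univ X _)]
    exact measure_univ
  have hT' : ∀ i, Measurable[(⨆ v, MeasurableSpace.comap (g.G v) (borel ℝ)) ⊔
      MeasurableSpace.comap N inferInstance, (⨆ v, MeasurableSpace.comap (g.G v) (borel ℝ)) ⊔
      MeasurableSpace.comap N inferInstance] (T i) ∧
      Measurable[(⨆ v, MeasurableSpace.comap (g.G v) (borel ℝ)) ⊔
      MeasurableSpace.comap N inferInstance, (⨆ v, MeasurableSpace.comap (g.G v) (borel ℝ)) ⊔
      MeasurableSpace.comap N inferInstance] (T i).symm := by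
    intro i
    have h1 := hact (Pi.single i 1)
    have h2 := hact (Pi.single i (-1))
    simp only [hactdef, permAct, pw_single, zpow_one, zpow_neg] at h1 h2
    exact ⟨h1, h2⟩
  have hC := @polC_of_polR X _ (μ.trim hmX) hprob d T (fun i => ⟨(hT' i).1, (hT' i).2,
    mp_trim _ hmX (hT i).2.2 (hT' i).1⟩) hcomm K Q hRR
  exact polC_of_trim _ T hT K Q hmX hC

end Pool.Agent.Lib.Pf720pq
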